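import Pool.Agent.X120.BM.Lie

/-!
# Hodge generic fibres over `(b_1^(-t_1), …, b_k^(-t_k))` of families with big symplectic monodromy

Let `V_i`, `1 ≤ i ≤ k`, be variations of Hodge structure with `h^{w_i, 0} = 1` (of Calabi-Yau type) over the projective line without finitely many points, which come from geometry over `ℚ`, with a
nondegenerate alternating form, such that the monodromy group is dense in a symplectic group. The fibre over `x = 0` may be smooth or degenerate: we suppose that near `x = 0` the
period matrix is `L_i(log (1/x)) P_i(x)`, where the entries of `P_i` are polynomials with any complex coefficients in a system of G-functions with rational coefficients which are solutions of a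
differential system with a regular singularity with rational exponents at infinity, and the entries of `L_i(u)` are polynomials. (For a smooth fibre over `0` the entries of a fundamental matrix of
solutions of the Gauss-Manin system over `ℚ(x)` at `0` are such G-functions, and `L_i = 1`. If the monodromy at `0` is unipotent then `L_i(u) = exp(u M_i)`.) Let `V_0` be any fixed
(pure or mixed) rational Hodge structure of dimension `n_0`. We consider the variation `V = V_0 ⊕ pr_1^* V_1 ⊕ … ⊕ pr_k^* V_k` on the product of the `k` curves.

The Lie algebra of the Mumford-Tate group of the fibre of `V` is a rational Lie algebra of block diagonal matrices whose complexification contains the operator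
`(Φ_0, Φ_1, …, Φ_k)`, the multiplication by `p` on the parts of type `(p, q)`.

**Theorem.** Let `b_i ≥ 2` be integers. There is a constant `K`, which depends only on the G-functions, the ranks, the degrees `e` of the polynomials, the `b_i` and on `n_0`, such that for all `V_0` and all such
`V_i`, for all but `K N^(k-1) log N` of the `N^k` points `x = (b_1^(-t_1), …, b_k^(-t_k))`, `1 ≤ t_i ≤ N` (for `k = 1` for all but `K log N` of the points `b^(-t)`), every rational Lie
algebra whose complexification contains `(Φ_0, Φ_1, …, Φ_k)` contains `0 × 𝔰𝔭(V_1) × … × 𝔰𝔭(V_k)`, so that the fibre is Hodge generic.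

So the Hodge locus of `V` contains at most `K N^(k-1) log N` of these points. If the Hodge numbers are not those of abelian varieties all special subvarieties of the curves are atypical, and by the conjecture the Hodge locus of `V_i` is finite. For the hypergeometric families of
Calabi-Yau type with their maximally unipotent degeneration this is `MP_0704bf_ag.ProductsAtPowers` and `MP_eeb1a4_ag.RelativeHodgeGenericity`; here the families and the fibre over `0` are arbitrary.
Known results for such families in this generality: for families of abelian varieties all but finitely many rational points are Hodge generic (Cadoret and Tamagawa, with Deligne's theorem on absolute Hodge classes); for other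
families it is not known that the Mumford-Tate group contains the connected `ℓ`-adic monodromy group, and only density results for points of bounded height are known, which say nothing on the powers of `b`.

Proof. Let `ω` be the vector of periods of the form of type `(w, 0)`. Non-generic fibres give quadratic relations for `ω` with rational coefficients, or with coefficients in a space of bounded dimension which depends only on `V_0`, or
relations of bidegree `(2, 2)` (`Pool.Agent.X120.HG`). By the counting theorem on geometric sequences (`Pool.Agent.X120.GS`, determinants of simultaneous Padé approximations at several points `b^(-t)`, which have small denominators) for all but few points all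
relations of this degree with coefficients in this space are stable under the symplectic groups, and there are no such relations.
-/

set_option autoImplicit false

open Pool.Agent.X120.BM

namespace Pool.Agent.Results.MP_0704bf_ag.BigMonodromyAtPowers

/-- All Hodge structures `H_i` with forms `A_i` on the fibres over `x_i = b_i^(-t_i)` (with the part of type `(w_i, 0)` given by the
period vector) are Hodge generic relative to `V_0`. -/
def GenericFibre {n₀ k e : ℕ} {G : Fin k → GSystem} {n : Fin k → ℕ} (Φ₀ : Matrix (Fin n₀) (Fin n₀) ℂ)
    (F : ∀ i, Periods (G i) (n i) e) (w b t : Fin k → ℕ) : Prop :=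
  ∀ (A : ∀ i, Matrix (Fin (n i)) (Fin (n i)) ℚ) (H : ∀ i, ℕ → Submodule ℂ (Fin (n i) → ℂ)),
    IsFibre F w b t A H → RelativelyGeneric Φ₀ w A H

/-- **The theorem.** -/
theorem result (n₀ k e : ℕ) (G : Fin k → GSystem) (n : Fin k → ℕ) (b : Fin k → ℕ) (hb : ∀ i, 2 ≤ b i) :
    ∃ K : ℝ, 0 ≤ K ∧ ∀ Φ₀ : Matrix (Fin n₀) (Fin n₀) ℂ, IsSplitOperator Φ₀ →
      ∀ F : ∀ i, Periods (G i) (n i) e, ∀ w : Fin k → ℕ, ∀ N : ℕ, 2 ≤ N →
      (({t : Fin k → ℕ | (∀ i, 1 ≤ t i ∧ t i ≤ N) ∧ ¬ GenericFibre Φ₀ F w b t}.ncard : ℕ) : ℝ) * N ≤
        K * (N : ℝ) ^ k * Real.log N := by
  obtain ⟨K, hK, h⟩ := count_rel n₀ e G n b hb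
  exact ⟨K, hK, fun Φ₀ hΦ₀ F w N hN => h Φ₀ hΦ₀ F w N hN _ fun t ht => ht⟩

end Pool.Agent.Results.MP_0704bf_ag.BigMonodromyAtPowers
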