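import Pool.Agent.Results.MP_0704bf_ag.BigMonodromyAtPowers
import Pool.Agent.X174.WinExpo

/-!
# Hodge generic fibres over `(b_1^(-t_1), …, b_k^(-t_k))`, for ALL exponents in cubes around thin sequences of points

Let `V_i`, `1 ≤ i ≤ k`, be variations of Hodge structure with `h^{w_i, 0} = 1` (of Calabi-Yau type) over the projective line
without finitely many points, which come from geometry over `ℚ`, with a nondegenerate alternating form, such that the
monodromy group is dense in a symplectic group, given near `x = 0` by period matrices `L_i(log (1/x)) P_i(x)`, where the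
entries of `P_i` are polynomials with any complex coefficients in a system of G-functions and the entries of `L_i(u)` are
polynomials, as in the result `BigMonodromyAtPowers` of helper120. Let `V_0` be a fixed (pure or mixed) rational Hodge
structure. We consider the variation `V = V_0 ⊕ pr_1^* V_1 ⊕ … ⊕ pr_k^* V_k` on the product of the `k` curves.

**Theorem.** Let `v ≥ 1` be a sequence of exponent of convergence at most `τ` (for `v_i = (i + 1) ^ a` this is `1 / a`, for
`v_i = c ^ i` it is `0`) and `ρ < 1`, and let `S` be any countable set of complex numbers. There is ONE set `E ⊂ ℝ^k` of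
Hausdorff dimension at most `(k - 1 + τ) / (1 - ρ)` such that for each `x` outside `E`, all bases `b_1, …, b_k ≥ 2` and all
Hodge structures `V_0` whose Hodge operator `Φ_0` has entries in `S`, for all but finitely many `i`: for ALL exponents
`t_j ≥ 1` with `|t_j - x_j v_i| ≤ v_i ^ ρ` the fibre of `V` at `(b_1^(-t_1), …, b_k^(-t_k))` is Hodge generic: every rational
Lie algebra whose complexification contains `(Φ_0, Φ_1, …, Φ_k)` contains `0 × 𝔰𝔭(V_1) × … × 𝔰𝔭(V_k)`.

For instance `S` can be the set of all entries of the Hodge operators of the Hodge structures of all varieties over the field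
of algebraic numbers. So the Hodge locus of `V` contains no point `(b_1^(-t_1), …, b_k^(-t_k))` with exponents in the cubes; if
the Hodge numbers are not those of abelian varieties all special subvarieties of the curves are atypical. The count of the
exceptional exponents in `[1, N]^k` is from `BigMonodromyAtPowers`.
-/

set_option autoImplicit false

open Pool.Agent.X120.BM

namespace Pool.Agent.Results.MP_0704bf_ag.ExponentsInCubes

open BigMonodromyAtPowers (GenericFibre)

/-- the exponent of convergence of the sequence `v` is at most `τ` -/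
def ExpLe (v : ℕ → ℝ) (τ : ℝ) : Prop := ∀ t : ℝ, τ < t → Summable (fun n : ℕ => (v n) ^ (-t))

/-- **Theorem.** Let `F` be period matrices of `k ≥ 1` families of Calabi-Yau type with big symplectic monodromy and `S` a
countable set of complex numbers. For every sequence `v ≥ 1` of exponent of convergence at most `τ ≥ 0` and every `ρ < 1`
there is a set `E ⊂ ℝ^k` of Hausdorff dimension at most `(k - 1 + τ) / (1 - ρ)` such that for each `x` outside `E`, all
`b_j ≥ 2`, all weights `w_j` and all `Φ_0` (with integer eigenvalues and a basis of eigenvectors) with entries in `S`, for all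
but finitely many `i`, for ALL exponents `t_j ≥ 1` with `|t_j - x_j v_i| ≤ v_i ^ ρ` the fibres over `(b_j^(-t_j))` are Hodge
generic relative to `Φ_0`. The sequences `v_i = (i + 1) ^ a` and `v_i = c ^ i` have exponent of convergence at most `1 / a`
and `0`. -/
theorem result :
    (∀ (k e : ℕ), 1 ≤ k → ∀ (G : Fin k → GSystem) (n : Fin k → ℕ) (F : ∀ j, Periods (G j) (n j) e) (S : Set ℂ),
      S.Countable → ∀ (v : ℕ → ℝ) (τ ρ : ℝ), (∀ i, 1 ≤ v i) → 0 ≤ τ → ExpLe v τ → ρ < 1 →
      ∃ E : Set (Fin k → ℝ), dimH E ≤ ENNReal.ofReal (((k : ℝ) - 1 + τ) / (1 - ρ)) ∧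
        ∀ x : Fin k → ℝ, x ∉ E → ∀ b w : Fin k → ℕ, (∀ j, 2 ≤ b j) →
          ∀ (n₀ : ℕ) (Φ₀ : Matrix (Fin n₀) (Fin n₀) ℂ), IsSplitOperator Φ₀ → (∀ c d, Φ₀ c d ∈ S) →
            ∃ i₀ : ℕ, ∀ i : ℕ, i₀ ≤ i → ∀ t : Fin k → ℕ, (∀ j, 1 ≤ t j) →
              (∀ j, |(t j : ℝ) - x j * v i| ≤ (v i) ^ ρ) → GenericFibre Φ₀ F w b t) ∧
    (∀ a : ℝ, 0 < a → ExpLe (fun n : ℕ => ((n : ℝ) + 1) ^ a) (1 / a)) ∧
    (∀ c : ℝ, 1 < c → ExpLe (fun n : ℕ => c ^ n) 0) := by
  refine ⟨fun k e hk G n F S hS v τ ρ hv hτ hE hρ => ?_, fun κ hκ => Pool.Agent.Y854.GM.expLe_pow κ hκ,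
    fun b hb => Pool.Agent.Y854.GM.expLe_geom b hb⟩
  have : Countable S := hS.to_subtype
  have key : ∀ z : (Fin k → ℕ) × (Fin k → ℕ) × ((n₀ : ℕ) × (Fin n₀ → Fin n₀ → S)), ∃ E : Set (Fin k → ℝ),
      dimH E ≤ ENNReal.ofReal (((k : ℝ) - 1 + τ) / (1 - ρ)) ∧
      ((∀ j, 2 ≤ z.1 j) → IsSplitOperator (Matrix.of fun c d => ((z.2.2.2 c d : S) : ℂ)) →
        ∀ x : Fin k → ℝ, x ∉ E → ∃ i₀ : ℕ, ∀ i : ℕ, i₀ ≤ i → ∀ t : Fin k → ℕ, (∀ j, 1 ≤ t j) →
          (∀ j, |(t j : ℝ) - x j * v i| ≤ (v i) ^ ρ) →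
            ¬ ¬ GenericFibre (Matrix.of fun c d => ((z.2.2.2 c d : S) : ℂ)) F z.2.1 z.1 t) := by
    rintro ⟨b, w, n₀, φ⟩
    dsimp only
    by_cases hw : (∀ j, 2 ≤ b j) ∧ IsSplitOperator (Matrix.of fun c d => ((φ c d : S) : ℂ))
    · obtain ⟨K, hK, h⟩ := BigMonodromyAtPowers.result n₀ k e G n b hw.1
      obtain ⟨E, h1, h2⟩ := Pool.Agent.X174.winExpo hk
        (fun t => ¬ GenericFibre (Matrix.of fun c d => ((φ c d : S) : ℂ)) F w b t) hK
        (fun N hN => h _ hw.2 F w N hN) hv hτ hE hρ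
      exact ⟨E, h1, fun _ _ => h2⟩
    · exact ⟨∅, by simp, fun h h' => absurd ⟨h, h'⟩ hw⟩
  choose Es h1 h2 using key
  refine ⟨⋃ z, Es z, ?_, fun x hx b w hb n₀ Φ₀ hΦ hS0 => ?_⟩
  · rw [dimH_iUnion]
    exact iSup_le h1
  · have hΦ' : (Matrix.of fun c d => (((fun c d => (⟨Φ₀ c d, hS0 c d⟩ : S)) c d : S) : ℂ)) = Φ₀ := rfl
    obtain ⟨i₀, hi₀⟩ := h2 ⟨b, w, n₀, fun c d => ⟨Φ₀ c d, hS0 c d⟩⟩ hb (by
      dsimp only
      exact hΦ) x (fun hm => hx (Set.mem_iUnion.2 ⟨_, hm⟩))
    exact ⟨i₀, fun i hi t ht htx => not_not.1 (hi₀ i hi t ht htx)⟩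

end Pool.Agent.Results.MP_0704bf_ag.ExponentsInCubes
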