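import Pool.Agent.X120.HG.Hyp

/-!
# Hodge generic fibres of the hypergeometric variations of Calabi-Yau type over the points `b^(-n)`

Let `β_1, …, β_m` be rational numbers which are not integers and `θ = z d/dz`. The hypergeometric operator
`θ^(2m) - z ∏_j (θ + β_j) (θ + 1 - β_j)` has maximally unipotent monodromy at `z = 0`. If the `β_j` are in `(0, 1)` it underlies an irreducible
variation of Hodge structure of rank `2m` and of weight `2m - 1` with all Hodge numbers `h^{p,q} = 1` on the projective
line minus three points, with generic Mumford–Tate group `GSp(2m)`; it is defined over `ℚ` if the set of the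
`exp (2 π i β_j)^{±1}` with multiplicities is Galois stable. For `m = 2` these are the 14 hypergeometric families of Calabi-Yau threefolds, for `β = (1/5, 2/5)` the mirror
quintic. For `m ≥ 2` all special points of these variations are atypical, and the conjecture says that there are only finitely many.

In coordinates with respect to the Frobenius basis `f_0, …, f_{2m-1}` of solutions the step `F^{2m-1} = H^{2m-1,0}` of the Hodge filtration at `z` is spanned by the row
`(f_0(z), …, f_{2m-1}(z))`. The rational structure is given by an invertible matrix `C`, with periods of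
the limiting mixed Hodge structure as entries. We allow all invertible matrices `C`.

**Theorem.** 1 (all Hodge structures of odd weight `w` with `h^{w,0} = 1`). Let `H` be a Hodge structure of odd weight `w` on `ℚ^n` which satisfies the first bilinear relation for an alternating rational
form `A` (for example if `A` is a polarisation) and such that `H^{w,0} = ℂ ω`. If the point `ω` of the projective space is on no quadric over `ℚ` then `H` is Hodge generic: every rational Lie algebra whose
complexification contains the Hodge operator (the multiplication by `p` on `H^{p,q}`), like that of the Mumford-Tate group, contains the symplectic Lie algebra of `A`. So the Mumford-Tate group is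
`GSp(n)`, and all Hodge tensors in all tensor powers are combinations of products of the form.

2. Let `b ≥ 2` be an integer. There is a `K` which depends only on the `β_j` and on `b` such that for all `C` all fibres over the points `z = b^(-t)`, `1 ≤ t ≤ N`, are Hodge generic except for at most `K log N`
values of `t`. So the Hodge locus of all tensor powers contains at most `K log N` of the first `N` points `b^(-t)`.

For `m ≥ 4` it is known that only finitely many of the points `1 / s`, `s ∈ ℕ`, are special (`MP_0704bf_ag.HodgeGenericIntegralPoints`). For `m = 2` and `m = 3`, in particular for the families of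
Calabi-Yau threefolds, this is not known, only that there are at most `K X^(1-δ)` of them with `s ≤ X` (`MP_eeb1a4_ag.CalabiYauHodgeLocus`) and at most `m + 1` in windows of the form `s - G u`; this says nothing on the powers of `b`, as
there are only `O(log X)` of these with `b^t ≤ X`.

Proof. 1. The top weight part of the symplectic Lie algebra `𝔰𝔭(A)_ℂ` is the line of the rank one matrix `X_0 = A ωᵀ ω`. Let `𝔪` be a rational Lie algebra whose complexification contains the Hodge operator.
Its complexification is graded, so it contains `X_0` or it is orthogonal to it for the trace form. In the first case the equations of `𝔪` at `X_0` are rational quadratic forms at `ω`, so they vanish on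
all matrices `A uᵀ u`, which span `𝔰𝔭(A)`. In the second case by complex conjugation `ω Y A ωᵀ = 0` for `Y ∈ 𝔪`, so `Y A` is alternating for all `Y ∈ 𝔪`, which is not true for the Hodge operator. 2. By the counting
theorem for hypergeometric families on geometric sequences (`Pool.Agent.X120.GS`: linear forms in G-functions, the theorem of Frobenius and Fuchs at infinity) all quadratic relations over `ℚ` between the
coordinates of `ω(b^(-t))` are for all but `K log N` of the `t ≤ N` specialisations of relations between the functions, and there are no such relations by the symplectic monodromy.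
-/

set_option autoImplicit false

open PowerSeries

namespace Pool.Agent.Results.MP_0704bf_ag.HodgeGenericAtPowers

/-- the power series `x + ε` in the variable `ε` -/
noncomputable def shift (x : ℚ) : PowerSeries ℚ := C x + X

/-- `a_k(ε) = ∏_{l < k} ∏_j (l + ε + β_j) (l + ε + 1 - β_j) / (l + 1 + ε)^2`. The series `∑_k a_k(ε) z^(k + ε)` satisfies
`(θ^n - z ∏_j (θ + β_j) (θ + 1 - β_j)) f = ε^n z^ε`, `n = 2m`, hence its coefficients `f_j` at `ε^j` with `j < n` are
solutions of the homogeneous equation. -/
noncomputable def frob {m : ℕ} (β : Fin m → ℚ) (k : ℕ) : PowerSeries ℚ :=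
  ∏ l ∈ Finset.range k, ∏ j, (shift (l + β j) * shift (l + 1 - β j) * ((shift (l + 1))⁻¹) ^ 2)

/-- The row `((θ^i f_j)(1 / s))_j`, where `f_j(z)` is the coefficient of `ε^j` in the series `∑_k a_k(ε) z^(k + ε)`,
`z^ε = ∑_l (log z)^l ε^l / l!`. -/
noncomputable def per {m : ℕ} (β : Fin m → ℚ) (s i : ℕ) : Fin (2 * m) → ℂ := fun j =>
  ∑ l ∈ Finset.range ((j : ℕ) + 1), ((Real.log (1 / s) ^ l / l.factorial : ℝ) : ℂ) *
    ∑' k : ℕ, ((coeff ((j : ℕ) - l) (shift k ^ i * frob β k) : ℚ) : ℂ) * (1 / (s : ℂ)) ^ k

/-- a rational matrix as a complex matrix -/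
def toC {n : ℕ} (M : Matrix (Fin n) (Fin n) ℚ) : Matrix (Fin n) (Fin n) ℂ := M.map fun x : ℚ => (x : ℂ)

/-- `H p = H^{p, w-p}`, `p ≤ w`, are the parts of a Hodge structure of weight `w` on `ℚ^n` with the first bilinear relation for the nondegenerate
alternating form `A`, for example a Hodge structure which is polarised by `A`. (The sum is direct because of the relation.) -/
structure IsHodge {n : ℕ} (w : ℕ) (A : Matrix (Fin n) (Fin n) ℚ) (H : ℕ → Submodule ℂ (Fin n → ℂ)) : Prop where
  alt : A.transpose = -A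
  nondeg : A.det ≠ 0
  span : (⨆ p : {p : ℕ // p ≤ w}, H p) = ⊤
  conj : ∀ p ≤ w, ∀ v ∈ H p, (fun i => star (v i)) ∈ H (w - p)
  orth : ∀ p ≤ w, ∀ r ≤ w, p + r ≠ w → ∀ v ∈ H p, ∀ u ∈ H r, dotProduct v (Matrix.mulVec (toC A) u) = 0

/-- The Hodge operator `Φ` is the multiplication by `p` on `H^{p, w-p}`; it generates with the scalars the Lie algebra of
the image of the Deligne torus. Matrices act on row vectors from the right. -/
def IsHodgeOperator {n : ℕ} (w : ℕ) (H : ℕ → Submodule ℂ (Fin n → ℂ)) (Φ : Matrix (Fin n) (Fin n) ℂ) : Prop :=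
  ∀ p ≤ w, ∀ v ∈ H p, Matrix.vecMul v Φ = (p : ℂ) • v

/-- Every rational Lie algebra of matrices whose complexification contains the Hodge operator (for example the Lie algebra
of the Mumford–Tate group of `H`) contains the whole symplectic Lie algebra of the form `A`. -/
def HodgeGeneric {n : ℕ} (w : ℕ) (A : Matrix (Fin n) (Fin n) ℚ) (H : ℕ → Submodule ℂ (Fin n → ℂ)) : Prop :=
  ∀ 𝔪 : Submodule ℚ (Matrix (Fin n) (Fin n) ℚ), (∀ X ∈ 𝔪, ∀ Y ∈ 𝔪, X * Y - Y * X ∈ 𝔪) →
    (∀ Φ, IsHodgeOperator w H Φ → Φ ∈ Submodule.span ℂ (toC '' (𝔪 : Set (Matrix (Fin n) (Fin n) ℚ)))) →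
    ∀ X : Matrix (Fin n) (Fin n) ℚ, X * A + A * X.transpose = 0 → X ∈ 𝔪

/-- the point `ω` is on no quadric over `ℚ` -/
def OnNoQuadric {n : ℕ} (ω : Fin n → ℂ) : Prop :=
  ∀ Q : Matrix (Fin n) (Fin n) ℚ, Q.transpose = Q → dotProduct ω (Matrix.mulVec (toC Q) ω) = 0 → Q = 0

/-- `H` is a Hodge structure of weight `2m - 1` such that `H^{2m-1, 0}` is the line spanned by the period vector at the point `z = 1 / s`, in the coordinates given by `C` -/
def IsFibre {m : ℕ} (β : Fin m → ℚ) (s : ℕ) (C : Matrix (Fin (2 * m)) (Fin (2 * m)) ℂ)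
    (A : Matrix (Fin (2 * m)) (Fin (2 * m)) ℚ) (H : ℕ → Submodule ℂ (Fin (2 * m) → ℂ)) : Prop :=
  IsHodge (2 * m - 1) A H ∧ H (2 * m - 1) = Submodule.span ℂ {Matrix.vecMul (per β s 0) C}

/-- the fibre at `z = 1 / s` is Hodge generic (for all forms `A`) -/
def GenericFibre {m : ℕ} (β : Fin m → ℚ) (s : ℕ) (C : Matrix (Fin (2 * m)) (Fin (2 * m)) ℂ) : Prop :=
  ∀ (A : Matrix (Fin (2 * m)) (Fin (2 * m)) ℚ) (H : ℕ → Submodule ℂ (Fin (2 * m) → ℂ)), IsFibre β s C A H →
    HodgeGeneric (2 * m - 1) A H

/-- the criterion -/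
theorem criterion {n w : ℕ} (hw : 0 < w) {A : Matrix (Fin n) (Fin n) ℚ} {H : ℕ → Submodule ℂ (Fin n → ℂ)}
    (hH : IsHodge w A H) {ω : Fin n → ℂ} (hω0 : ω ≠ 0) (hω : H w = Submodule.span ℂ {ω}) (hq : OnNoQuadric ω) :
    HodgeGeneric w A H := by
  intro 𝔪 hbr hΦ X hX
  exact Pool.Agent.X120.HG.generic hw hH.alt hH.nondeg hH.span hH.conj hH.orth hω0 hω hq hbr hΦ X hX

/-- **The theorem.** -/
theorem result :
    -- 1: the criterion for all Hodge structures of positive weight `w` with `h^{w,0} = 1` and an alternating form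
    (∀ (n w : ℕ), 0 < w → ∀ (A : Matrix (Fin n) (Fin n) ℚ) (H : ℕ → Submodule ℂ (Fin n → ℂ)), IsHodge w A H →
      ∀ ω : Fin n → ℂ, ω ≠ 0 → H w = Submodule.span ℂ {ω} → OnNoQuadric ω → HodgeGeneric w A H) ∧
    -- 2: the hypergeometric variations of Calabi-Yau type at the points `z = b^(-t)`
    (∀ (m : ℕ), 1 ≤ m → ∀ β : Fin m → ℚ, (∀ j, ∀ a : ℤ, β j ≠ a) → ∀ b : ℕ, 2 ≤ b →
      ∃ K : ℝ, ∀ C : Matrix (Fin (2 * m)) (Fin (2 * m)) ℂ, C.det ≠ 0 → ∀ N : ℕ, 2 ≤ N →
        (({t : ℕ | 1 ≤ t ∧ t ≤ N ∧ ¬ GenericFibre β (b ^ t) C}.ncard : ℕ) : ℝ) ≤ K * Real.log N) := by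
  refine ⟨fun n w hw A H hH ω hω0 hω hq => criterion hw hH hω0 hω hq, ?_⟩
  intro m hm β hβ b hb
  classical
  have hβ' : ∀ j, ∀ l : ℕ, (l : ℚ) + β j ≠ 0 ∧ (l : ℚ) + -β j ≠ 0 := by
    intro j l
    constructor
    · intro h
      apply hβ j (-(l : ℤ))
      push_cast
      linear_combination h
    · intro h
      apply hβ j (l : ℤ)
      push_cast
      linear_combination -h
  have hQ := Pool.Agent.Y119.HZ.QD_QB hm hβ'
  have hdd : (fun c : Fin (2 * m) => (Pool.Agent.Y118.CM.dd β 0 c : ℂ)) ≠ 0 := by
    intro h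
    have h1 := congrFun h ⟨0, by omega⟩
    have h2 : (Pool.Agent.Y118.CM.dd β 0 0 : ℂ) = 0 := h1
    have h3 : Pool.Agent.Y118.CM.dd β 0 0 ≠ 0 := Pool.Agent.Y118.CM.dd_ne fun j => by
      have := hβ j 0
      simpa using this
    exact h3 (by exact_mod_cast h2)
  obtain ⟨K, hK, hcount⟩ := Pool.Agent.X120.GS.hyp_relV 1 1 2 (fun _ => 2 * m)
      (fun _ => Pool.Agent.Y119.HY.QB β) (fun _ => hQ) (fun _ μ hμ => Pool.Agent.X120.GS.QB_rat β hμ)
      (fun _ a c => Pool.Agent.Y119.HY.sdc_hps hβ' hQ a c) (b := fun _ => b) (fun _ => hb)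
  refine ⟨K, ?_⟩
  intro C hC N hN
  set S := {t : ℕ | 1 ≤ t ∧ t ≤ N ∧ ¬ GenericFibre β (b ^ t) C} with hS
  have hfin : S.Finite := by
    refine (Set.finite_Iic N).subset ?_
    intro t ht
    exact ht.2.1
  have hΩ : ∀ _ : Fin 1, IsUnit (Pool.Agent.X120.HG.Omc β C) := fun _ => Pool.Agent.X120.HG.Omc_unit hQ hC
  have hV : Module.finrank ℚ (Submodule.span ℚ {(1 : ℂ)}) ≤ 1 := (finrank_span_singleton (one_ne_zero)).le
  have h1 := hcount (fun _ => Pool.Agent.X120.HG.Omc β C) hΩ (Submodule.span ℚ {(1 : ℂ)}) hV N hN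
    (hfin.toFinset.map ⟨fun t _ => t, fun x y h => congrFun h 0⟩) (by
      intro t ht
      rw [Finset.mem_map] at ht
      obtain ⟨t, ht', rfl⟩ := ht
      have ht'' := hfin.mem_toFinset.1 ht'
      refine ⟨fun _ => ⟨ht''.1, ht''.2.1⟩, fun hgood => ht''.2.2 ?_⟩
      have hs : 2 ≤ b ^ t := hb.trans (Nat.le_self_pow (by have := ht''.1; omega) _)
      obtain ⟨h2, h3⟩ := Pool.Agent.X120.HG.no_quad hm hQ hs hC hdd hgood
      intro A H hH
      exact criterion (by omega) hH.1 (ω := Matrix.vecMul (per β (b ^ t) 0) C) h2 hH.2 h3)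
  rw [Finset.card_map, pow_one] at h1
  rw [Set.ncard_eq_toFinset_card S hfin]
  have hN0 : (0 : ℝ) < N := by
    have : 0 < N := by omega
    exact_mod_cast this
  have h2 : ((hfin.toFinset.card : ℕ) : ℝ) * N ≤ (K * Real.log N) * N := by
    calc ((hfin.toFinset.card : ℕ) : ℝ) * N ≤ K * N * Real.log N := h1
      _ = _ := by ring
  exact le_of_mul_le_mul_right h2 hN0

end Pool.Agent.Results.MP_0704bf_ag.HodgeGenericAtPowers
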