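import Pool.Agent.X120.HG.Cnt

/-!
# Hodge generic products of fibres of hypergeometric variations of Calabi-Yau type, at the points `(b_1^(-t_1), …, b_k^(-t_k))`

Let `β_(i,1), …, β_(i,m_i)`, `1 ≤ i ≤ k`, be rational numbers which are not integers, `θ = z d/dz`, and let `V_i` be the variation of Hodge structure on the
projective line minus three points given by the hypergeometric operator `θ^(2m_i) - z ∏_j (θ + β_(i,j)) (θ + 1 - β_(i,j))`. It has maximally unipotent monodromy at `z = 0`. If the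
`β_(i,j)` are in `(0, 1)` it is irreducible of rank `2m_i`, of weight `2m_i - 1` with all Hodge numbers `h^{p,q} = 1`. For `m_i = 2` these are the variations of the
14 hypergeometric families of Calabi-Yau threefolds, for example of the mirror quintic. The rational structure is given, in the coordinates of the Frobenius basis, by an invertible matrix `C_i` (periods of the
limiting mixed Hodge structure); all invertible complex matrices are allowed here. Let `V = pr_1^* V_1 ⊕ … ⊕ pr_k^* V_k` on `S = (ℙ¹ - {0, 1, ∞})^k`; the families may be equal.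
For `m_i ≥ 2` all special subvarieties of `S` for `V` are atypical: those of the form `{special point} × …`, and those of the kind of the diagonal, over which two
of the `V_i` are isomorphic. The conjecture says that the Hodge locus is a finite union of subvarieties.

**Theorem.** 1 (a criterion for all Hodge structures). Let `H_1, …, H_k` be Hodge structures of weights `w_i > 0` on `ℚ^{n_i}` which satisfy the first bilinear relation for nondegenerate alternating rational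
forms `A_i` (for example polarisations) with `H_i^{w_i,0} = ℂ ω_i`. If no `ω_i` is on a quadric over `ℚ`, and for `i ≠ j` no nontrivial relation `Q_i'(ω_i) Q_j(ω_j) = Q_i(ω_i) Q_j'(ω_j)` with rational quadratic
forms holds, then every rational Lie algebra of block diagonal matrices whose complexification contains the Hodge operator contains
`𝔰𝔭(A_1) × … × 𝔰𝔭(A_k)`. So the Mumford-Tate group of `H_1 ⊕ … ⊕ H_k` is as large as possible, and all Hodge tensors are generated by the forms. (No condition on the other Hodge numbers, or on the weights.)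

2. Let `b_i ≥ 2` be integers. There is a constant `K`, which depends only on the `β_(i,j)` and the `b_i`, such that for all `C_i`, for all but
`K N^(k-1) log N` of the `N^k` points `z = (b_1^(-t_1), …, b_k^(-t_k))`, `1 ≤ t_i ≤ N`, the fibre of `V` at `z` is Hodge generic in this sense. So the Hodge locus of `V` contains at most `K N^(k-1) log N` of them;
as the diagonals (if there are equal families) are in the Hodge locus this is sharp up to the logarithm.

Proof. (`Pool.Agent.X120.HG`) 1. Two structures, `w_1 ≤ w_2`: let `𝔪` be the Lie algebra, `X_i = A_i ω_iᵀ ω_i` the highest weight vectors of `𝔰𝔭(A_i)_ℂ`. As `H_2` is generic (criterion of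
`MP_0704bf_ag.HodgeGenericAtPowers`), the complexification of `𝔪` contains the sum `c X_1 + X_2` for some `c`, with `c = 0` if `w_1 < w_2`. If `c ≠ 0` the rational functionals which define `𝔪` give the relations
`Q_1'(ω_1) Q_2(ω_2) = Q_1(ω_1) Q_2'(ω_2)`. As they are trivial, for all `Y ∈ 𝔰𝔭(A_2)_ℂ` there is a `c` such that `c X_1 + Y` is in the complexification. For the complex conjugate `Y` of `X_2`, which is of a different weight than `X_1`,
it follows that `Y` is in the complexification, so is `X_2`, and `0 × 𝔰𝔭(A_2) ⊆ 𝔪`. The general case follows as symplectic Lie algebras are perfect (Goursat, Kolchin, Ribet). 2. By the counting theorem for relations on geometric sequences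
(`Pool.Agent.X120.GS`) the relations in question are specialisations of relations between functions for almost all tuples, and there are none of them.
-/

set_option autoImplicit false

open PowerSeries

namespace Pool.Agent.Results.MP_0704bf_ag.ProductsAtPowers

/-- the power series `x + ε` in the variable `ε` -/
noncomputable def shift (x : ℚ) : PowerSeries ℚ := C x + X

/-- `a_k(ε) = ∏_{l < k} ∏_j (l + ε + β_j) (l + ε + 1 - β_j) / (l + 1 + ε)^2`. The series `∑_k a_k(ε) z^(k + ε)` satisfies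
`(θ^n - z ∏_j (θ + β_j) (θ + 1 - β_j)) f = ε^n z^ε`, `n = 2m`, hence its coefficients `f_j` at `ε^j` with `j < n` are
solutions of the homogeneous equation. -/
noncomputable def frob {m : ℕ} (β : Fin m → ℚ) (k : ℕ) : PowerSeries ℚ :=
  ∏ l ∈ Finset.range k, ∏ j, (shift (l + β j) * shift (l + 1 - β j) * ((shift (l + 1))⁻¹) ^ 2)

/-- The row `((θ^i f_j)(1 / s))_j`, where `f_j(z)` is the coefficient of `ε^j` in the series `∑_k a_k(ε) z^(k + ε)`,
`z^ε = ∑_l (log z)^l ε^l / l!`. -/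
noncomputable def per {m : ℕ} (β : Fin m → ℚ) (s i : ℕ) : Fin (2 * m) → ℂ := fun j =>
  ∑ l ∈ Finset.range ((j : ℕ) + 1), ((Real.log (1 / s) ^ l / l.factorial : ℝ) : ℂ) *
    ∑' k : ℕ, ((coeff ((j : ℕ) - l) (shift k ^ i * frob β k) : ℚ) : ℂ) * (1 / (s : ℂ)) ^ k

/-- a rational matrix as a complex matrix -/
def toC {n : ℕ} (M : Matrix (Fin n) (Fin n) ℚ) : Matrix (Fin n) (Fin n) ℂ := M.map fun x : ℚ => (x : ℂ)

/-- `H p = H^{p, w-p}`, `p ≤ w`, are the parts of a Hodge structure of weight `w` on `ℚ^n` with the first bilinear relation for the nondegenerate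
alternating form `A`, for example a Hodge structure which is polarised by `A`. (The sum is direct because of the relation.) -/
structure IsHodge {n : ℕ} (w : ℕ) (A : Matrix (Fin n) (Fin n) ℚ) (H : ℕ → Submodule ℂ (Fin n → ℂ)) : Prop where
  alt : A.transpose = -A
  nondeg : A.det ≠ 0
  span : (⨆ p : {p : ℕ // p ≤ w}, H p) = ⊤
  conj : ∀ p ≤ w, ∀ v ∈ H p, (fun i => star (v i)) ∈ H (w - p)
  orth : ∀ p ≤ w, ∀ r ≤ w, p + r ≠ w → ∀ v ∈ H p, ∀ u ∈ H r, dotProduct v (Matrix.mulVec (toC A) u) = 0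

/-- The Hodge operator `Φ` is the multiplication by `p` on `H^{p, w-p}`. Matrices act on row vectors from the right. -/
def IsHodgeOperator {n : ℕ} (w : ℕ) (H : ℕ → Submodule ℂ (Fin n → ℂ)) (Φ : Matrix (Fin n) (Fin n) ℂ) : Prop :=
  ∀ p ≤ w, ∀ v ∈ H p, Matrix.vecMul v Φ = (p : ℂ) • v

section
variable {k : ℕ} {n : Fin k → ℕ}

/-- the complexification of a rational space of block diagonal matrices `(X_1, …, X_k)` -/
def complexification (𝔪 : Submodule ℚ (∀ i, Matrix (Fin (n i)) (Fin (n i)) ℚ)) :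
    Submodule ℂ (∀ i, Matrix (Fin (n i)) (Fin (n i)) ℂ) :=
  Submodule.span ℂ ((fun X : (∀ i, Matrix (Fin (n i)) (Fin (n i)) ℚ) => fun i => toC (X i)) '' 𝔪)

/-- closed under brackets -/
def IsLie (𝔪 : Submodule ℚ (∀ i, Matrix (Fin (n i)) (Fin (n i)) ℚ)) : Prop :=
  ∀ X ∈ 𝔪, ∀ Y ∈ 𝔪, (fun i => X i * Y i - Y i * X i) ∈ 𝔪

/-- Every rational Lie algebra `𝔪` of block diagonal matrices whose complexification contains `(Φ_1, …, Φ_k)`, `Φ_i` the Hodge
operator of `H_i` (for example the Lie algebra of the Mumford–Tate group), contains `𝔰𝔭(A_1) × … × 𝔰𝔭(A_k)`. -/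
def HodgeGeneric (w : Fin k → ℕ) (A : ∀ i, Matrix (Fin (n i)) (Fin (n i)) ℚ)
    (H : ∀ i, ℕ → Submodule ℂ (Fin (n i) → ℂ)) : Prop :=
  ∀ 𝔪 : Submodule ℚ (∀ i, Matrix (Fin (n i)) (Fin (n i)) ℚ), IsLie 𝔪 →
    (∀ Φ : ∀ i, Matrix (Fin (n i)) (Fin (n i)) ℂ, (∀ i, IsHodgeOperator (w i) (H i) (Φ i)) → Φ ∈ complexification 𝔪) →
    ∀ X : ∀ i, Matrix (Fin (n i)) (Fin (n i)) ℚ, (∀ i, X i * A i + A i * (X i).transpose = 0) → X ∈ 𝔪

/-- passing to coordinates of complex numbers over `ℚ` -/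
theorem coord_mem {𝔪 : Submodule ℚ (∀ i, Matrix (Fin (n i)) (Fin (n i)) ℚ)}
    {Z : ∀ i, Matrix (Fin (n i)) (Fin (n i)) ℂ} (hZ : Z ∈ complexification 𝔪)
    (φ : ℂ →ₗ[ℚ] ℚ) : (fun i => Pool.Agent.X120.HG.ph φ (Z i)) ∈ 𝔪 := by
  unfold complexification at hZ
  induction hZ using Submodule.span_induction generalizing φ with
  | mem x hx =>
    obtain ⟨Y, hY, rfl⟩ := hx
    have h1 : (fun i => Pool.Agent.X120.HG.ph φ (toC (Y i))) = φ 1 • Y := by
      funext i
      exact Pool.Agent.X120.HG.ph_cq φ _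
    exact h1 ▸ 𝔪.smul_mem _ hY
  | zero =>
    have h1 : (fun i => Pool.Agent.X120.HG.ph φ (0 : Matrix (Fin (n i)) (Fin (n i)) ℂ)) = 0 := by
      funext i
      exact Pool.Agent.X120.HG.ph_zero φ
    exact h1 ▸ 𝔪.zero_mem
  | add x y _ _ hx hy =>
    have h1 : (fun i => Pool.Agent.X120.HG.ph φ (x i + y i)) =
        (fun i => Pool.Agent.X120.HG.ph φ (x i)) + (fun i => Pool.Agent.X120.HG.ph φ (y i)) := by
      funext i
      exact Pool.Agent.X120.HG.ph_add φ _ _
    have h2 := 𝔪.add_mem (hx φ) (hy φ)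
    rw [← h1] at h2
    exact h2
  | smul a x _ hx => exact hx (Pool.Agent.X120.HG.phs φ a)

end

/-- the value of the quadratic form `Q` at `ω` -/
noncomputable def qv {n : ℕ} (Q : Matrix (Fin n) (Fin n) ℚ) (ω : Fin n → ℂ) : ℂ := dotProduct ω (Matrix.mulVec (toC Q) ω)

/-- the point `ω` is on no quadric over `ℚ` -/
def OnNoQuadric {n : ℕ} (ω : Fin n → ℂ) : Prop :=
  ∀ Q : Matrix (Fin n) (Fin n) ℚ, Q.transpose = Q → qv Q ω = 0 → Q = 0

/-- `Q₁'(ω₁) Q₂(ω₂) = Q₁(ω₁) Q₂'(ω₂)` holds only if `Q₁' ⊗ Q₂ = Q₁ ⊗ Q₂'` -/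
def NoPairRelation {a b : ℕ} (ω₁ : Fin a → ℂ) (ω₂ : Fin b → ℂ) : Prop :=
  ∀ (Q₁ Q₁' : Matrix (Fin a) (Fin a) ℚ) (Q₂ Q₂' : Matrix (Fin b) (Fin b) ℚ), Q₁.transpose = Q₁ → Q₁'.transpose = Q₁' →
    Q₂.transpose = Q₂ → Q₂'.transpose = Q₂' → qv Q₁' ω₁ * qv Q₂ ω₂ = qv Q₁ ω₁ * qv Q₂' ω₂ →
    ∀ i j k l, Q₁' i j * Q₂ k l = Q₁ i j * Q₂' k l

/-- The fibre at `z = (1 / s_1, …, 1 / s_k)` is Hodge generic: for all Hodge structures `H_i` of weight `2 m_i - 1` with a form
`A_i` such that `H_i^{2 m_i - 1, 0}` is spanned by the period vector of the `i`-th family at `1 / s_i`, in the coordinates given by `C_i`. -/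
def GenericFibre {k : ℕ} {m : Fin k → ℕ} (β : ∀ i, Fin (m i) → ℚ) (s : Fin k → ℕ)
    (C : ∀ i, Matrix (Fin (2 * m i)) (Fin (2 * m i)) ℂ) : Prop :=
  ∀ (A : ∀ i, Matrix (Fin (2 * m i)) (Fin (2 * m i)) ℚ) (H : ∀ i, ℕ → Submodule ℂ (Fin (2 * m i) → ℂ)),
    (∀ i, IsHodge (2 * m i - 1) (A i) (H i)) →
    (∀ i, H i (2 * m i - 1) = Submodule.span ℂ {Matrix.vecMul (per (β i) (s i) 0) (C i)}) →
    HodgeGeneric (fun i => 2 * m i - 1) A H

section
variable {k : ℕ} {n : Fin k → ℕ}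

/-- the space of the `(0, X)` with `X` in a given space -/
def total (𝔪 : Submodule ℚ (∀ i, Matrix (Fin (n i)) (Fin (n i)) ℚ)) : Submodule ℚ (Pool.Agent.X120.HG.TM 0 n ℚ) where
  carrier := {X | X.2 ∈ 𝔪}
  zero_mem' := 𝔪.zero_mem
  add_mem' := fun hx hy => 𝔪.add_mem hx hy
  smul_mem' := fun c _ hx => 𝔪.smul_mem c hx

theorem noB_of_pair {a b : ℕ} {ω₁ : Fin a → ℂ} {ω₂ : Fin b → ℂ} (h : NoPairRelation ω₁ ω₂) :
    Pool.Agent.X120.HG.NoB ω₁ ω₂ := by
  have hsym : ∀ {n : ℕ} (Q : Matrix (Fin n) (Fin n) ℚ) (u : Fin n → ℂ),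
      qv (Q + Q.transpose) u = 2 * dotProduct u (Matrix.mulVec (Pool.Agent.X120.HG.cq Q) u) := by
    intro n Q u
    have h1 : toC (Q + Q.transpose) = Pool.Agent.X120.HG.cq Q + (Pool.Agent.X120.HG.cq Q).transpose := by
      show Pool.Agent.X120.HG.cq (Q + Q.transpose) = _
      rw [Pool.Agent.X120.HG.cq_add, Pool.Agent.X120.HG.cq_tr]
    unfold qv
    rw [h1, Matrix.add_mulVec, dotProduct_add, Pool.Agent.X120.HG.quad_tr']
    ring
  have hst : ∀ {n : ℕ} (Q : Matrix (Fin n) (Fin n) ℚ), (Q + Q.transpose).transpose = Q + Q.transpose := by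
    intro n Q
    rw [Matrix.transpose_add, Matrix.transpose_transpose, add_comm]
  intro Q₁ Q₁' Q₂ Q₂' h0
  have h1 := h (Q₁ + Q₁.transpose) (Q₁' + Q₁'.transpose) (Q₂ + Q₂.transpose) (Q₂' + Q₂'.transpose) (hst _) (hst _) (hst _)
    (hst _) (by
      rw [hsym, hsym, hsym, hsym]
      linear_combination 4 * h0)
  ext k l
  rw [Matrix.smul_apply, Matrix.smul_apply, smul_eq_mul, smul_eq_mul]
  have h2 : qv (Q₁' + Q₁'.transpose) ω₁ * ((Q₂ + Q₂.transpose) k l : ℚ) = qv (Q₁ + Q₁.transpose) ω₁ * ((Q₂' + Q₂'.transpose) k l : ℚ) := by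
    unfold qv
    simp only [dotProduct, Matrix.mulVec, Finset.mul_sum, Finset.sum_mul]
    refine Finset.sum_congr rfl fun i _ => Finset.sum_congr rfl fun j _ => ?_
    have h3 : (((Q₁' + Q₁'.transpose) i j * (Q₂ + Q₂.transpose) k l : ℚ) : ℂ) =
        (((Q₁ + Q₁.transpose) i j * (Q₂' + Q₂'.transpose) k l : ℚ) : ℂ) := by rw [h1 i j k l]
    push_cast at h3
    show ω₁ i * (((Q₁' + Q₁'.transpose) i j : ℚ) * ω₁ j) * _ = ω₁ i * (((Q₁ + Q₁.transpose) i j : ℚ) * ω₁ j) * _
    linear_combination (ω₁ i * ω₁ j) * h3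
  rw [hsym, hsym] at h2
  have h4 : ∀ Q : Matrix (Fin b) (Fin b) ℚ, (Pool.Agent.X120.HG.cq Q + (Pool.Agent.X120.HG.cq Q).transpose) k l =
      (((Q + Q.transpose) k l : ℚ) : ℂ) := by
    intro Q
    rw [← Pool.Agent.X120.HG.cq_tr, ← Pool.Agent.X120.HG.cq_add]
    rfl
  rw [h4, h4]
  linear_combination h2 / 2

/-- the criterion -/
theorem criterion {w : Fin k → ℕ} (hw : ∀ i, 0 < w i) {A : ∀ i, Matrix (Fin (n i)) (Fin (n i)) ℚ}
    {H : ∀ i, ℕ → Submodule ℂ (Fin (n i) → ℂ)} (hH : ∀ i, IsHodge (w i) (A i) (H i)) {ω : ∀ i, Fin (n i) → ℂ}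
    (hω0 : ∀ i, ω i ≠ 0) (hω : ∀ i, H i (w i) = Submodule.span ℂ {ω i}) (hq : ∀ i, OnNoQuadric (ω i))
    (hp : ∀ i j, i ≠ j → NoPairRelation (ω i) (ω j)) : HodgeGeneric w A H := by
  obtain ⟨d, hd⟩ := Pool.Agent.X120.HG.rel_mult 0
  have hHS : ∀ i, Pool.Agent.X120.HG.HS (w i) (A i) (H i) := fun i =>
    ⟨(hH i).alt, (hH i).nondeg, (hH i).span, (hH i).conj, (hH i).orth⟩
  have hdata := fun i => (hHS i).data (hw i) (hω0 i) (hω i)
  choose B p i₀ i₁ c₀ hHD hc₀ hBc hop using hdata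
  -- the space of coefficients is `ℚ`
  have hE : ∀ e : ℕ, ∀ z ∈ (Pool.Agent.X120.HG.EntM (1 : Matrix (Fin 0) (Fin 0) ℂ)) ^ e, ∃ r : ℚ, z = r := by
    have h1 : Pool.Agent.X120.HG.EntM (1 : Matrix (Fin 0) (Fin 0) ℂ) ≤ 1 := by
      unfold Pool.Agent.X120.HG.EntM
      rw [Submodule.span_le]
      rintro _ ⟨x, rfl⟩
      rcases x with _ | x
      · exact Submodule.one_le.1 le_rfl
      · exact x.1.1.elim0
    intro e z hz
    have h2 : (Pool.Agent.X120.HG.EntM (1 : Matrix (Fin 0) (Fin 0) ℂ)) ^ e ≤ 1 := by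
      clear hz
      induction e with
      | zero => rw [pow_zero]
      | succ e ih =>
        rw [pow_succ]
        calc _ ≤ (1 : Submodule ℚ ℂ) * 1 := mul_le_mul' ih h1
          _ = 1 := one_mul 1
    have h3 := h2 hz
    rw [Submodule.mem_one] at h3
    obtain ⟨r, hr⟩ := h3
    exact ⟨r, hr.symm.trans (eq_ratCast _ r)⟩
  intro 𝔪 hbr hΦ X hX
  have h1 := hd (1 : Matrix (Fin 0) (Fin 0) ℂ) (by rw [Matrix.det_one]; exact isUnit_one) (fun i => i.elim0) k n w A B p i₀ i₁ hHD (by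
      intro i
      rw [hBc i]
      refine Pool.Agent.X120.HG.NoQ.smul ?_ (hc₀ i)
      intro Q hQ hQM h0
      choose r hr using fun a b => hE d _ (hQM a b)
      have h2 : Q = toC (Matrix.of r) := by
        ext a b
        exact hr a b
      have h3 : (Matrix.of r).transpose = Matrix.of r := by
        ext a b
        have h4 := congrFun (congrFun hQ a) b
        rw [Matrix.transpose_apply, hr, hr] at h4
        rw [Matrix.transpose_apply]
        exact_mod_cast h4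
      rw [h2] at h0 ⊢
      rw [hq i _ h3 h0]
      ext a b
      simp [toC]) (by
      intro i j hij
      rw [hBc i, hBc j]
      exact (noB_of_pair (hp i j hij)).smul (hc₀ i) (hc₀ j)) (total 𝔪) (by
      intro X hX Y hY
      exact hbr _ hX _ hY) (by
      intro φ
      exact coord_mem (hΦ _ hop) φ) X hX
  exact h1

end

/-- **The theorem.** -/
theorem result :
    -- 1: the criterion
    (∀ (k : ℕ) (n w : Fin k → ℕ), (∀ i, 0 < w i) → ∀ (A : ∀ i, Matrix (Fin (n i)) (Fin (n i)) ℚ)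
      (H : ∀ i, ℕ → Submodule ℂ (Fin (n i) → ℂ)), (∀ i, IsHodge (w i) (A i) (H i)) → ∀ ω : ∀ i, Fin (n i) → ℂ,
      (∀ i, ω i ≠ 0) → (∀ i, H i (w i) = Submodule.span ℂ {ω i}) → (∀ i, OnNoQuadric (ω i)) →
      (∀ i j, i ≠ j → NoPairRelation (ω i) (ω j)) → HodgeGeneric w A H) ∧
    -- 2: the hypergeometric variations of Calabi-Yau type at the points `z = (b_1^(-t_1), …, b_k^(-t_k))`
    (∀ (k : ℕ) (m : Fin k → ℕ), (∀ i, 1 ≤ m i) → ∀ β : ∀ i, Fin (m i) → ℚ, (∀ i j, ∀ a : ℤ, β i j ≠ a) →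
      ∀ b : Fin k → ℕ, (∀ i, 2 ≤ b i) →
      ∃ K : ℝ, 0 ≤ K ∧ ∀ C : ∀ i, Matrix (Fin (2 * m i)) (Fin (2 * m i)) ℂ, (∀ i, (C i).det ≠ 0) → ∀ N : ℕ, 2 ≤ N →
        (({t : Fin k → ℕ | (∀ i, 1 ≤ t i ∧ t i ≤ N) ∧ ¬ GenericFibre β (fun i => b i ^ t i) C}.ncard : ℕ) : ℝ) * N ≤
          K * (N : ℝ) ^ k * Real.log N) := by
  refine ⟨fun k n w hw A H hH ω hω0 hω hq hp => criterion hw hH hω0 hω hq hp, ?_⟩
  intro k m hm β hβ b hb
  classical
  obtain ⟨K, hK, hcount⟩ := Pool.Agent.X120.HG.hyp_gen 0 k m hm β hβ b hb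
  refine ⟨K, hK, ?_⟩
  intro C hC N hN
  set S := {t : Fin k → ℕ | (∀ i, 1 ≤ t i ∧ t i ≤ N) ∧ ¬ GenericFibre β (fun i => b i ^ t i) C} with hS
  have hfin : S.Finite := by
    refine (Set.finite_Iic (fun _ : Fin k => N)).subset ?_
    intro t ht i
    exact (ht.1 i).2
  rw [Set.ncard_eq_toFinset_card S hfin]
  refine hcount 1 (by rw [Matrix.det_one]; exact isUnit_one) (fun i => i.elim0) C hC N hN hfin.toFinset fun t ht => ?_
  have ht' : t ∈ S := hfin.mem_toFinset.1 ht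
  refine ⟨ht'.1, fun hgood => ht'.2 ?_⟩
  intro A H hH hHω 𝔪 hbr hΦ X hX
  exact hgood A H (fun i => ⟨(hH i).alt, (hH i).nondeg, (hH i).span, (hH i).conj, (hH i).orth⟩) hHω (total 𝔪)
    (fun X hX Y hY => hbr _ hX _ hY) (fun Φ hop φ => coord_mem (hΦ Φ hop) φ) X hX

end Pool.Agent.Results.MP_0704bf_ag.ProductsAtPowers
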